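import Pool.Agent.J4H27.GC.Mn10

/-!
# Common divisors of points on two elliptic curves

For two elliptic curves `y² = x³ + a j x + b j`, `j = 0, 1`, over a number field `K` and `ε > 0`
there is an `N` such that for every `δ > 0` all but finitely many pairs of affine points with
`h(x) + h(x') - h(1 : x : x') > ε (h(x) + h(x'))` satisfy `Q(x, x') = 0` for an irreducible
polynomial `Q` over `K` whose degrees `α` in `x` and `β` in `x'` are between `1` and `N`, whose
height is at most `δ (h(x) + h(x'))`, and with `|α h(x) - β h(x')| ≤ δ (h(x) + h(x'))`.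

Up to a bounded function, `h(x) + h(x') - h(1 : x : x')` is twice the height of the canonical
divisor of the blow-up of the product of the two curves at its origin.
-/

set_option autoImplicit false

open Height

theorem Pool.Agent.Results.MP_17a322_nt.EllipticCommonDivisors.result
    (K : Type) [Field K] [NumberField K] (a b : Fin 2 → K)
    (hD : ∀ j, 4 * a j ^ 3 + 27 * b j ^ 2 ≠ 0) (ε : ℝ) (hε : 0 < ε) :
    ∃ N : ℕ, ∀ δ : ℝ, 0 < δ →
      {z : (K × K) × (K × K) |
        (z.1.2 ^ 2 = z.1.1 ^ 3 + a 0 * z.1.1 + b 0 ∧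
          z.2.2 ^ 2 = z.2.1 ^ 3 + a 1 * z.2.1 + b 1) ∧
        ε * (logHeight₁ z.1.1 + logHeight₁ z.2.1) <
          logHeight₁ z.1.1 + logHeight₁ z.2.1 - logHeight ![1, z.1.1, z.2.1] ∧
        ¬ ∃ Q : MvPolynomial (Fin 2) K, Irreducible Q ∧
          MvPolynomial.eval ![z.1.1, z.2.1] Q = 0 ∧
          Q.degreeOf 0 ∈ Set.Icc 1 N ∧ Q.degreeOf 1 ∈ Set.Icc 1 N ∧
          logHeight (fun s : Q.support => Q.coeff s) ≤
            δ * (logHeight₁ z.1.1 + logHeight₁ z.2.1) ∧
          |(Q.degreeOf 0 : ℝ) * logHeight₁ z.1.1 - Q.degreeOf 1 * logHeight₁ z.2.1| ≤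
            δ * (logHeight₁ z.1.1 + logHeight₁ z.2.1)}.Finite :=
  Pool.Agent.J4H27.GC.main_special a b hD ε hε
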