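import Pool.Agent.J4H27.AB.Log
import Pool.Agent.TH954.Z.WTop

/-!
# The exceptional points of Vojta's inequality on varieties over products of abelian varieties: the
points of height at most `T` lie on `O(log T)` hypersurfaces of bounded degree
-/

set_option autoImplicit false

open MvPolynomial NumberField Pool.Agent.TH954.X

namespace Pool.Agent.Results.MP_17a322_nt.LogManyHypersurfaces

section

variable {K : Type} [Field K] {n β : ℕ}

/-- the points over `F` of the product `B` of the abelian varieties `A b` -/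
abbrev Pts (A : Fin β → AbV K n) (F : Type) [Field F] [Algebra K F] : Type := ∀ b, (A b).Pt F

/-- the coordinates of a point of `B` -/
def crds {A : Fin β → AbV K n} {F : Type} [Field F] [Algebra K F] (P : Pts A F) :
    Fin β → Fin n → F := fun b => (P b).1

/-- the coordinates of the point `(t, P)` of `ℙ × B`, with `ℙ` the projective space of dimension
`n - 1` -/
def full {A : Fin β → AbV K n} {F : Type} [Field F] [Algebra K F] (t : Fin n → F)
    (P : Pts A F) : Option (Fin β) → Fin n → F := fun o => Option.elim o t (crds P)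

/-- the equations of a closed subscheme of `ℙ × B`: finitely many multihomogeneous forms `f i`, of
multidegrees `δ i` -/
structure Eqs (K : Type) [Field K] (n β : ℕ) where
  s : ℕ
  f : Fin s → MvPolynomial (Option (Fin β) × Fin n) K
  δ : Fin s → Option (Fin β) → ℕ
  hom : ∀ i, MH (δ i) (f i)

/-- the point `(t, P)` of `ℙ × B` lies on the closed subset `X` -/
def On {A : Fin β → AbV K n} (X : Eqs K n β) {F : Type} [Field F] [Algebra K F]
    (t : Fin n → F) (P : Pts A F) : Prop := ∀ i, ev (X.f i) (full t P) = 0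

/-- the sum of the numbers `dim` of the `A b`; it is at most the dimension of `B`, and equal to it if
`DimensionLe A` holds -/
def dimB (A : Fin β → AbV K n) : ℕ := ∑ b, (A b).dim

/-- the transcendence degree over `K` of the field generated by the coordinates of a point of `B` -/
noncomputable def trdegPt {A : Fin β → AbV K n} {F : Type} [Field F] [Algebra K F] (P : Pts A F) :
    Cardinal :=
  Algebra.trdeg K (IntermediateField.adjoin K
    (Set.range (fun p : Fin β × Fin n => crds P p.1 p.2)))

/-- the dimension of `B` is at most (hence equal to) `dimB A` -/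
def DimensionLe (A : Fin β → AbV K n) : Prop :=
  ∀ (F : Type) [Field F] [Algebra K F] (P : Pts A F), trdegPt P ≤ (dimB A : Cardinal)

/-- the image in `B` of the closed subset `X ∩ W` has codimension at least `c` -/
def ImageCodim (A : Fin β → AbV K n) (X W : Eqs K n β) (c : ℕ) : Prop :=
  ∀ (F : Type) [Field F] [Algebra K F] (t : Fin n → F) (P : Pts A F), t ≠ 0 → On X t P →
    On W t P → trdegPt P + (c : Cardinal) ≤ (dimB A : Cardinal)

/-- the set `S` of rational points of `B` is contained in a union of `N` hypersurfaces `Φ i = 0` of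
`B`, none of which contains `B`, given by forms `Φ i` over `K` of degree at most `d` in the
coordinates of each of the factors -/
def OnHypersurfaces (A : Fin β → AbV K n) (N d : ℕ) (S : Set (Pts A K)) : Prop :=
  ∃ (Φ : Fin N → MvPolynomial (Fin β × Fin n) K) (τ : Fin N → Fin β → ℕ),
    (∀ i, MH (τ i) (Φ i) ∧ (∀ b, τ i b ≤ d) ∧
      ∃ (F : Type) (_ : Field F) (_ : Algebra K F) (P : Pts A F), ev (Φ i) (crds P) ≠ 0) ∧
    ∀ P ∈ S, ∃ i, ev (Φ i) (crds P) = 0

/-- the local height of `x` with respect to the subscheme `W`: minus the logarithm of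
`max_i |f i (x)|_v / ∏_j |x_j|_v ^ (δ i j)`, with `|x_j|_v` the maximum of the absolute values of the
coordinates of `x_j` -/
noncomputable def lambda (W : Eqs K n β) (x : Option (Fin β) → Fin n → K)
    (v : AbsoluteValue K ℝ) : ℝ :=
  -Real.log (⨆ i, v (ev (W.f i) x) / ∏ j, (⨆ c, v (x j c)) ^ W.δ i j)

variable [NumberField K]

/-- the height with respect to the subscheme `W`: the sum of the local heights over all places -/
noncomputable def heightW (W : Eqs K n β) (x : Option (Fin β) → Fin n → K) : ℝ :=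
  ∑ w : InfinitePlace K, (w.mult : ℝ) * lambda W x w.val +
    ∑ᶠ v : FinitePlace K, lambda W x v.val

/-- the proximity function: the sum of the local heights over the places in `S = S1 ∪ S2` -/
noncomputable def proximity (D : Eqs K n β) (S1 : Finset (InfinitePlace K))
    (S2 : Finset (FinitePlace K)) (x : Option (Fin β) → Fin n → K) : ℝ :=
  ∑ w ∈ S1, (w.mult : ℝ) * lambda D x w.val + ∑ v ∈ S2, lambda D x v.val

/-- the sum of the logarithmic heights of the components of a point of `B` -/
noncomputable def height {A : Fin β → AbV K n} (P : Pts A K) : ℝ :=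
  ∑ b, Height.logHeight (crds P b)

/-- the exceptional points `P` of `B(K)`: there is a rational point `x = (t, P)` of `X` over `P` which
is in `W` or in `D` or does not satisfy the inequality `h_W(x) + m_{S,D}(x) ≤ ε h(P)` -/
def Exceptions (A : Fin β → AbV K n) (X W D : Eqs K n β)
    (S1 : Finset (InfinitePlace K)) (S2 : Finset (FinitePlace K)) (ε : ℝ) : Set (Pts A K) :=
  {P | ∃ t : Fin n → K, t ≠ 0 ∧ On X t P ∧ (On W t P ∨ On D t P ∨
    ε * height P < heightW W (full t P) + proximity D S1 S2 (full t P))}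

end

/-- the abelian variety `A` is the elliptic curve `y² = x³ + a x + b`: its points over all extension
fields `F` are those of Mathlib's Weierstrass curve, with the same group law and the coordinates
`(z, x, y, 0, ..., 0)`, equal to `(1, x, y, 0, ..., 0)` for the affine points and to
`(0, 0, 1, 0, ..., 0)` for the point at infinity -/
def IsWeierstrass {K : Type} [Field K] {n : ℕ} (A : AbV K n) (a b : K) : Prop :=
  A.dim = 1 ∧ ∀ (F : Type) [Field F] [DecidableEq F] [Algebra K F],
    ∃ e : A.Pt F ≃+ (We.curve (algebraMap K F a) (algebraMap K F b)).toAffine.Point,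
      ∀ P : A.Pt F, P.1 = fun c : Fin n => if h : c.1 < 3 then We.coords (e P) ⟨c.1, h⟩ else 0

/-- Let `B = ∏ A b` be a product of abelian varieties over the number field `K`, of positive
dimension, `Γ` a finitely generated subgroup of `B(K)` (for instance `B(K)`, by the theorem of
Mordell and Weil), `X` a closed subset of `ℙ × B`, `W` and `D` closed subschemes of `X` whose images
in `B` have codimension at least two and at least one, `S` a finite set of places and `ε > 0`. Call
`P ∈ Γ` exceptional if some rational point `x` of `X` over `P` is in `W` or in `D` or violates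
`h_W(x) + m_{S,D}(x) ≤ ε h(P)`. Then, for some `N` and `d` and all `T`, the exceptional points with
`T ≤ h(P) ≤ 2 T` lie on `N` hypersurfaces of `B` of multidegree at most `d`; hence the exceptional
points of height at most `T` lie on at most `C log T` hypersurfaces of `B` of bounded multidegree.
Moreover, products of elliptic curves are examples. -/
theorem result :
    (∀ (K : Type) [Field K] [NumberField K] (n β : ℕ) (A : Fin β → AbV K n), 0 < dimB A →
      ∀ Γ : AddSubgroup (Pts A K), Γ.FG →
      ∀ X W D : Eqs K n β, ImageCodim A X W 2 → ImageCodim A X D 1 →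
      ∀ (S1 : Finset (InfinitePlace K)) (S2 : Finset (FinitePlace K)) (ε : ℝ), 0 < ε →
        (∃ N d : ℕ, ∀ T : ℝ, OnHypersurfaces A N d
          {P | P ∈ Γ ∧ P ∈ Exceptions A X W D S1 S2 ε ∧ T ≤ height P ∧ height P ≤ 2 * T}) ∧
        ∃ (C : ℝ) (d : ℕ), ∀ T : ℝ, 2 ≤ T → ∃ N : ℕ, (N : ℝ) ≤ C * Real.log T ∧
          OnHypersurfaces A N d
            {P | P ∈ Γ ∧ P ∈ Exceptions A X W D S1 S2 ε ∧ height P ≤ T}) ∧
    ∀ (K : Type) [Field K] [NumberField K] (n : ℕ), 3 ≤ n → ∀ (β : ℕ) (a b : Fin β → K),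
      (∀ i, 4 * a i ^ 3 + 27 * b i ^ 2 ≠ 0) →
      ∃ A : Fin β → AbV K n, DimensionLe A ∧ ∀ i, IsWeierstrass (A i) (a i) (b i) := by
  refine ⟨?_, fun K _ _ n hn β a b hd => Pool.Agent.TH954.Z.wtop K n hn β a b hd⟩
  intro K _ _ n β A hdim Γ hFG X W D hcW hcD S1 S2 ε hε
  have hcov : ∀ (N d : ℕ) (S : Set (Pts A K)), Pool.Agent.J4H27.AB.Cov A N d S →
      OnHypersurfaces A N d S := by
    rintro N d S ⟨H, h1, h2⟩
    choose Φ τ h3 h4 h5 h6 using h1
    refine ⟨Φ, τ, fun i => ⟨h4 i, h3 i, h5 i⟩, fun P hP => ?_⟩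
    obtain ⟨i, hi⟩ := Set.mem_iUnion.1 (h2 hP)
    exact ⟨i, h6 i P hi⟩
  obtain ⟨N, d, hN⟩ := Pool.Agent.J4H27.AB.dyadic A hdim Γ hFG X.f
    (fun i => ⟨X.δ i, X.hom i⟩) W.f W.δ W.hom D.f D.δ D.hom
    (fun F _ _ t P ht h1 h2 => hcW F t P ht h1 h2)
    (fun F _ _ t P ht h1 h2 => hcD F t P ht h1 h2) S1 S2 ε hε
  obtain ⟨c1, c2, T0, hc1, hT0, hcnt⟩ := Pool.Agent.TH954.Z.cnt K n β A Γ hFG
  have hfin : {P : Pts A K | P ∈ Γ ∧ height P ≤ T0}.Finite := (hcnt T0 le_rfl).1
  have hfin1 : {P : Pts A K | P ∈ {P : Pts A K | P ∈ Γ ∧ P ∈ Exceptions A X W D S1 S2 ε} ∧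
      height P ≤ 1}.Finite :=
    hfin.subset (fun P hP => ⟨hP.1.1, hP.2.trans hT0⟩)
  obtain ⟨N0, hN0⟩ := Pool.Agent.J4H27.AB.cov_finite hdim hfin1
  have hdy : ∀ T : ℝ, Pool.Agent.J4H27.AB.Cov A N d
      {P | P ∈ {P : Pts A K | P ∈ Γ ∧ P ∈ Exceptions A X W D S1 S2 ε} ∧
        T / 2 ≤ height P ∧ height P ≤ T} := fun T =>
    (hN T).sub (fun P hP => ⟨⟨⟨hP.1.1, hP.2.2⟩, hP.1.2⟩, hP.2.1⟩)
  refine ⟨⟨N, d, fun T => hcov N d _ ((hdy (2 * T)).sub ?_)⟩, ?_⟩
  · rintro P ⟨h1, h2, h3, h4⟩
    exact ⟨⟨h1, h2⟩, by linarith, h4⟩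
  · obtain ⟨C, d', hC⟩ := Pool.Agent.J4H27.AB.log_cov hN0 hdy
    refine ⟨C, d', fun T hT => ?_⟩
    obtain ⟨M, hM1, hM2⟩ := hC T hT
    refine ⟨M, hM1, hcov M d' _ (hM2.sub ?_)⟩
    rintro P ⟨h1, h2, h3⟩
    exact ⟨⟨h1, h2⟩, h3⟩

end Pool.Agent.Results.MP_17a322_nt.LogManyHypersurfaces
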