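import Pool.Agent.J4H27.GE.Fin6

/-!
# Common divisors of units and of points on an elliptic curve

Let `E : y² = x³ + a x + b` be an elliptic curve over a number field `K`, `S` a finite set of
finite places of `K` and `ε > 0`. All but finitely many pairs `(u, P)` of an `S`-unit `u ≠ 1` of
`K` and an affine point `P = (x, y)` of `E (K)` satisfy

`∑_v d_v min (log⁺ |(u - 1)⁻¹|_v) (log⁺ |x|_v) ≤ ε (h (u) + h (x))`,

where `v` runs over all places of `K`. Below `z = (u, (x, y))`.

For the blow-up of `P¹ × E` at the point `(1, O)` and the boundary `{0, ∞} × E` this is Vojta's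
inequality for the integral points, outside the curves `{1} × E`, `P¹ × {O}` and the exceptional
curve.
-/

set_option autoImplicit false

open Height NumberField Real

theorem Pool.Agent.Results.MP_17a322_nt.UnitsAndEllipticPoints.result
    (K : Type) [Field K] [NumberField K] (a b : K) (hE : 4 * a ^ 3 + 27 * b ^ 2 ≠ 0)
    (S : Finset (FinitePlace K)) (ε : ℝ) (hε : 0 < ε) :
    {z : K × (K × K) |
      (z.1 ≠ 0 ∧ z.1 ≠ 1 ∧ ∀ v ∉ S, v z.1 = 1) ∧
      z.2.2 ^ 2 = z.2.1 ^ 3 + a * z.2.1 + b ∧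
      ε * (logHeight₁ z.1 + logHeight₁ z.2.1) <
        ∑ w : InfinitePlace K, (w.mult : ℝ) * min (log⁺ (w (z.1 - 1)⁻¹)) (log⁺ (w z.2.1)) +
          ∑ᶠ v : FinitePlace K, min (log⁺ (v (z.1 - 1)⁻¹)) (log⁺ (v z.2.1))}.Finite :=
  Pool.Agent.J4H27.GE.main_gcd a b hE S ε hε
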